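import Pool.Agent.W295.PR.Stm
import Pool.Agent.Helper472.Lat_Chars

set_option autoImplicit false
set_option linter.all false

open Topology

namespace Pool.Agent.W918.PR.CH

open Pool.Agent.W295.PR

theorem main : S_CH := by
  intro K _ _ _ _ _ L L0 hL hL0 hle hne
  obtain ⟨c, hc, hc0⟩ : ∃ c ∈ L, c ∉ L0 := by
    by_contra h
    push Not at h
    exact hne (le_antisymm hle h)
  haveI : IsClosed (L0 : Set K) := hL0
  haveI : T2Space (K ⧸ L0) := inferInstance
  have h1 : (c : K ⧸ L0) ≠ 1 := by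
    intro h
    exact hc0 ((QuotientGroup.eq_one_iff c).1 h)
  obtain ⟨χ, hχ⟩ := Pool.LatH472.chars (K := K ⧸ L0) (c : K ⧸ L0) h1
  refine ⟨fun x => χ (x : K ⧸ L0), ?_, ?_, ?_, ⟨c, hc, hχ⟩⟩
  · exact (χ.continuous_toFun.comp continuous_quot_mk).continuousOn
  · intro a _ b _
    show χ ((a * b : K) : K ⧸ L0) = _
    rw [QuotientGroup.mk_mul, map_mul]
  · intro a ha
    show χ (a : K ⧸ L0) = 1
    rw [(QuotientGroup.eq_one_iff a).2 ha, map_one]

end Pool.Agent.W918.PR.CH
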